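import Mathlib

set_option autoImplicit false

namespace Pool.Agent.Results.MP_01ee34_gt.Neg

open Metric

theorem key (ρ : EuclideanSpace ℝ (Fin 3) ≃ₗᵢ[ℝ] EuclideanSpace ℝ (Fin 3)) :
    ∃ u : Fin 3 → ℝ, u 0 ^ 2 + u 1 ^ 2 + u 2 ^ 2 = 1 ∧
      ∀ x, ρ x 2 = x 0 * u 0 + x 1 * u 1 + x 2 * u 2 := by
  refine ⟨ρ.symm (EuclideanSpace.single 2 1), ?_, fun x => ?_⟩
  · have h := EuclideanSpace.real_norm_sq_eq (ρ.symm (EuclideanSpace.single 2 1))
    rw [Fin.sum_univ_three] at h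
    rw [← h]
    simp
  · have h := ρ.inner_map_map x (ρ.symm (EuclideanSpace.single 2 1))
    rw [ρ.apply_symm_apply, EuclideanSpace.inner_single_right] at h
    simp only [PiLp.inner_apply, Fin.sum_univ_three, RCLike.inner_apply, conj_trivial] at h
    linarith

theorem result : ∃ F : Fin 2 → Set (EuclideanSpace ℝ (Fin 3)),
    (∀ i, IsClosed (F i)) ∧ (⋃ i, F i) = sphere 0 1 ∧
    ∀ i, ∃ A : Finset (EuclideanSpace ℝ (Fin 3)), (A : Set (EuclideanSpace ℝ (Fin 3))) ⊆ sphere 0 1 ∧ A.card = 3 ∧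
      ∀ ρ : EuclideanSpace ℝ (Fin 3) ≃ₗᵢ[ℝ] EuclideanSpace ℝ (Fin 3), ¬ ρ '' A ⊆ F i := by
  classical
  have hc : Continuous fun x : EuclideanSpace ℝ (Fin 3) => |x 2| := by fun_prop
  have hs : ∀ a b c : ℝ, a ^ 2 + b ^ 2 + c ^ 2 = 1 →
      (!₂[a, b, c] : EuclideanSpace ℝ (Fin 3)) ∈ sphere 0 1 := by
    intro a b c h
    rw [mem_sphere_zero_iff_norm, EuclideanSpace.norm_eq, Fin.sum_univ_three]
    simp [h]
  refine ⟨![sphere 0 1 ∩ {x | 11 / 20 ≤ |x 2|}, sphere 0 1 ∩ {x | |x 2| ≤ 11 / 20}], ?_, ?_, ?_⟩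
  · intro i
    fin_cases i
    · exact isClosed_sphere.inter (isClosed_le continuous_const hc)
    · exact isClosed_sphere.inter (isClosed_le hc continuous_const)
  · ext x
    simp only [Set.mem_iUnion, Fin.exists_fin_two, Matrix.cons_val_zero, Matrix.cons_val_one,
      Set.mem_inter_iff, Set.mem_setOf_eq]
    exact ⟨fun h => h.elim (·.1) (·.1), fun h => (le_total _ _).imp (⟨h, ·⟩) (⟨h, ·⟩)⟩
  · intro i
    fin_cases i
    · refine ⟨{!₂[1, 0, 0], !₂[-8 / 17, 15 / 17, 0], !₂[-8 / 17, -15 / 17, 0]}, ?_, ?_, ?_⟩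
      · intro x hx
        simp only [Finset.coe_insert, Finset.coe_singleton, Set.mem_insert_iff,
          Set.mem_singleton_iff] at hx
        rcases hx with rfl | rfl | rfl <;> exact hs _ _ _ (by norm_num)
      · refine Finset.card_eq_three.2 ⟨_, _, _, ?_, ?_, ?_, rfl⟩ <;>
        · intro h
          have := congrArg (fun x : EuclideanSpace ℝ (Fin 3) => x 1) h
          norm_num at this
      · intro ρ h
        obtain ⟨u, hu, hu'⟩ := key ρ
        have h1 := (h ⟨!₂[1, 0, 0], by simp, rfl⟩).2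
        have h2 := (h ⟨!₂[-8 / 17, 15 / 17, 0], by simp, rfl⟩).2
        have h3 := (h ⟨!₂[-8 / 17, -15 / 17, 0], by simp, rfl⟩).2
        simp only [Set.mem_setOf_eq, hu', le_abs] at h1 h2 h3
        simp at h1 h2 h3
        have := sq_nonneg (u 2)
        rcases h1 with h1 | h1 <;> rcases h2 with h2 | h2 <;> rcases h3 with h3 | h3 <;> nlinarith
    · refine ⟨{!₂[1, 0, 0], !₂[0, 1, 0], !₂[0, 0, 1]}, ?_, ?_, ?_⟩
      · intro x hx
        simp only [Finset.coe_insert, Finset.coe_singleton, Set.mem_insert_iff,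
          Set.mem_singleton_iff] at hx
        rcases hx with rfl | rfl | rfl <;> exact hs _ _ _ (by norm_num)
      · refine Finset.card_eq_three.2 ⟨_, _, _, ?_, ?_, ?_, rfl⟩ <;>
        · intro h
          have := congrArg (fun x : EuclideanSpace ℝ (Fin 3) => x 0 + 2 * x 1) h
          norm_num at this
      · intro ρ h
        obtain ⟨u, hu, hu'⟩ := key ρ
        have h1 := (h ⟨!₂[1, 0, 0], by simp, rfl⟩).2
        have h2 := (h ⟨!₂[0, 1, 0], by simp, rfl⟩).2
        have h3 := (h ⟨!₂[0, 0, 1], by simp, rfl⟩).2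
        simp only [Set.mem_setOf_eq, hu', abs_le] at h1 h2 h3
        simp at h1 h2 h3
        nlinarith [h1.1, h1.2, h2.1, h2.2, h3.1, h3.2]

end Pool.Agent.Results.MP_01ee34_gt.Neg
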